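import Mathlib

/-! Vanishing sums of powers of linear forms in two variables. -/

set_option autoImplicit false

namespace Pool.Agent.H20.CI

open Polynomial

/-- if `∑ c_j (1 + t ρ_j) ^ d = 0` for all `t` then `∑ c_j R(ρ_j) = 0` for all polynomials `R` of
degree at most `d` -/
lemma sum_poly {α : Type*} (T : Finset α) (c ρ : α → ℂ) (d : ℕ)
    (h : ∀ t : ℂ, ∑ j ∈ T, c j * (1 + t * ρ j) ^ d = 0) (R : ℂ[X]) (hR : R.natDegree ≤ d) :
    ∑ j ∈ T, c j * R.eval (ρ j) = 0 := by
  classical
  -- moments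
  have hmom : ∀ k, k ≤ d → ∑ j ∈ T, c j * ρ j ^ k = 0 := by
    have hp : (∑ k ∈ Finset.range (d + 1),
        C ((d.choose k : ℂ) * ∑ j ∈ T, c j * ρ j ^ k) * X ^ k : ℂ[X]) = 0 := by
      apply Polynomial.funext
      intro t
      rw [eval_finsetSum, eval_zero, ← h t]
      simp only [eval_mul, eval_C, eval_pow, eval_X]
      have h1 : ∀ j ∈ T, c j * (1 + t * ρ j) ^ d =
          ∑ k ∈ Finset.range (d + 1), c j * ((d.choose k : ℂ) * ρ j ^ k * t ^ k) := by
        intro j _
        rw [add_comm, add_pow, Finset.mul_sum]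
        refine Finset.sum_congr rfl fun k _ => ?_
        rw [one_pow, mul_pow]
        ring
      rw [Finset.sum_congr rfl h1, Finset.sum_comm]
      refine Finset.sum_congr rfl fun k _ => ?_
      rw [Finset.mul_sum, Finset.sum_mul]
      refine Finset.sum_congr rfl fun j _ => ?_
      ring
    intro k hk
    have h2 := congrArg (fun p : ℂ[X] => p.coeff k) hp
    simp only [finsetSum_coeff, coeff_C_mul, coeff_X_pow, coeff_zero] at h2
    rw [Finset.sum_eq_single k] at h2
    · rw [if_pos rfl, mul_one] at h2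
      rcases mul_eq_zero.1 h2 with h3 | h3
      · exact absurd h3 (by exact_mod_cast (Nat.choose_pos hk).ne')
      · exact h3
    · intro b _ hb
      rw [if_neg (fun h => hb h.symm), mul_zero]
    · intro h3
      exact absurd (Finset.mem_range.2 (by omega)) h3
  have h1 : ∀ j ∈ T, c j * R.eval (ρ j) =
      ∑ k ∈ Finset.range (d + 1), R.coeff k * (c j * ρ j ^ k) := by
    intro j _
    rw [eval_eq_sum_range' (lt_of_le_of_lt hR (Nat.lt_succ_self d)), Finset.mul_sum]
    refine Finset.sum_congr rfl fun k _ => ?_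
    ring
  rw [Finset.sum_congr rfl h1, Finset.sum_comm]
  refine Finset.sum_eq_zero fun k hk => ?_
  rw [← Finset.mul_sum, hmom k (by rw [Finset.mem_range] at hk; omega), mul_zero]

/-- the sum over the terms with equal ratio vanishes -/
lemma sum_class {α : Type*} [DecidableEq α] (T : Finset α) (c ρ : α → ℂ) (d : ℕ)
    (hT : T.card ≤ d + 1)
    (h : ∀ t : ℂ, ∑ j ∈ T, c j * (1 + t * ρ j) ^ d = 0) {i : α} (hi : i ∈ T) :
    ∑ j ∈ T.filter (fun j => ρ j = ρ i), c j = 0 := by
  classical
  set V : Finset ℂ := (T.image ρ).erase (ρ i) with hV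
  set R : ℂ[X] := ∏ v ∈ V, (X - C v) with hR
  have hmem : ρ i ∈ T.image ρ := Finset.mem_image_of_mem ρ hi
  have hdeg : R.natDegree ≤ d := by
    rw [hR, natDegree_prod_of_monic _ _ (fun v _ => monic_X_sub_C v)]
    simp only [natDegree_X_sub_C, Finset.sum_const, smul_eq_mul, mul_one]
    rw [hV, Finset.card_erase_of_mem hmem]
    have := Finset.card_image_le (s := T) (f := ρ)
    omega
  have h0 : R.eval (ρ i) ≠ 0 := by
    rw [hR, eval_prod]
    refine Finset.prod_ne_zero_iff.2 fun v hv => ?_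
    rw [eval_sub, eval_X, eval_C]
    intro h1
    rw [hV, Finset.mem_erase] at hv
    exact hv.1 (sub_eq_zero.1 h1).symm
  have h1 := sum_poly T c ρ d h R hdeg
  rw [← Finset.sum_filter_add_sum_filter_not T (fun j => ρ j = ρ i)] at h1
  have h2 : ∑ j ∈ T.filter (fun j => ¬ ρ j = ρ i), c j * R.eval (ρ j) = 0 := by
    refine Finset.sum_eq_zero fun j hj => ?_
    rw [Finset.mem_filter] at hj
    have h3 : R.eval (ρ j) = 0 := by
      rw [hR, eval_prod]
      refine Finset.prod_eq_zero (i := ρ j) ?_ ?_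
      · rw [hV, Finset.mem_erase]
        exact ⟨hj.2, Finset.mem_image_of_mem ρ hj.1⟩
      · rw [eval_sub, eval_X, eval_C, sub_self]
    rw [h3, mul_zero]
  rw [h2, add_zero] at h1
  have h4 : ∑ j ∈ T.filter (fun j => ρ j = ρ i), c j * R.eval (ρ j) =
      (∑ j ∈ T.filter (fun j => ρ j = ρ i), c j) * R.eval (ρ i) := by
    rw [Finset.sum_mul]
    refine Finset.sum_congr rfl fun j hj => ?_
    rw [(Finset.mem_filter.1 hj).2]
  rw [h4] at h1
  exact (mul_eq_zero.1 h1).resolve_right h0

end Pool.Agent.H20.CI
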