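import Pool.Agent.H20.CI.Rel
import Pool.Agent.H20.CI.Pow

/-! Counts of transcendence degrees for the blocks. -/

set_option autoImplicit false

namespace Pool.Agent.H20.CI

lemma cl_zero (S : Set ℂ) : (0 : ℂ) ∈ cl S := by simpa using cl_nat S 0

lemma cl_one (S : Set ℂ) : (1 : ℂ) ∈ cl S := by simpa using cl_nat S 1

lemma cl_sub {S : Set ℂ} {z w : ℂ} (hz : z ∈ cl S) (hw : w ∈ cl S) : z - w ∈ cl S := by
  rw [sub_eq_add_neg]
  exact cl_add hz (cl_neg hw)

lemma cl_div {S : Set ℂ} {z w : ℂ} (hz : z ∈ cl S) (hw : w ∈ cl S) : z / w ∈ cl S := by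
  rw [div_eq_mul_inv]
  exact cl_mul hz (cl_inv hw)

lemma cl_prod {S : Set ℂ} {α : Type*} (s : Finset α) (f : α → ℂ) (h : ∀ i ∈ s, f i ∈ cl S) :
    ∏ i ∈ s, f i ∈ cl S := by
  classical
  induction s using Finset.induction_on with
  | empty => simpa using cl_nat S 1
  | insert a s ha ih =>
    rw [Finset.prod_insert ha]
    exact cl_mul (h a (Finset.mem_insert_self a s))
      (ih fun i hi => h i (Finset.mem_insert_of_mem hi))

lemma cl_eval {S : Set ℂ} {M : ℕ} {p : MvPolynomial (Fin M) ℂ} (hp : ∀ m, p.coeff m ∈ cl S)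
    {h : Fin M → ℂ} (hh : ∀ k, h k ∈ cl S) : MvPolynomial.eval h p ∈ cl S := by
  rw [MvPolynomial.eval_eq']
  exact cl_sum _ _ fun m _ => cl_mul (hp m) (cl_prod _ _ fun k _ => cl_pow (hh k) _)

/-- a matrix whose products with the vectors `u` and `v` are known -/
lemma matrix_count {N s : ℕ} (A : Fin s → Fin (N + 1) → ℂ) (u v : Fin (N + 1) → ℂ)
    (j1 j2 : Fin (N + 1)) (hj : j1 ≠ j2) (hu1 : u j1 = 1) (hu2 : u j2 = 0) (hv1 : v j1 = 0)
    (hv2 : v j2 = 1) : ∃ T : Finset ℂ, T.card ≤ s * (N - 1) ∧ ∀ S : Set ℂ,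
      (T : Set ℂ) ⊆ cl S → (∀ j, u j ∈ cl S) → (∀ j, v j ∈ cl S) →
      (∀ k, ∑ j, A k j * u j ∈ cl S) → (∀ k, ∑ j, A k j * v j ∈ cl S) →
      ∀ k j, A k j ∈ cl S := by
  classical
  set E : Finset (Fin (N + 1)) := (Finset.univ.erase j1).erase j2 with hE
  have hEc : E.card = N - 1 := by
    rw [hE, Finset.card_erase_of_mem (Finset.mem_erase.2 ⟨hj.symm, Finset.mem_univ _⟩),
      Finset.card_erase_of_mem (Finset.mem_univ _), Finset.card_univ, Fintype.card_fin]
    omega
  refine ⟨((Finset.univ : Finset (Fin s)) ×ˢ E).image (fun p => A p.1 p.2), ?_, ?_⟩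
  · refine Finset.card_image_le.trans ?_
    rw [Finset.card_product, hEc, Finset.card_univ, Fintype.card_fin]
  · intro S hT hu hv h1 h2 k j
    have hA : ∀ j ∈ E, A k j ∈ cl S := fun j hj => hT (by
      rw [Finset.mem_coe]
      exact Finset.mem_image.2 ⟨(k, j), Finset.mem_product.2 ⟨Finset.mem_univ k, hj⟩, rfl⟩)
    have hsplit : ∀ w : Fin (N + 1) → ℂ, ∑ j, A k j * w j =
        A k j1 * w j1 + (A k j2 * w j2 + ∑ j ∈ E, A k j * w j) := by
      intro w
      rw [← Finset.add_sum_erase Finset.univ _ (Finset.mem_univ j1),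
        ← Finset.add_sum_erase _ _ (Finset.mem_erase.2 ⟨hj.symm, Finset.mem_univ j2⟩)]
    by_cases hj1 : j = j1
    · rw [hj1]
      have h3 := hsplit u
      rw [hu1, hu2, mul_one, mul_zero, zero_add] at h3
      have h4 : A k j1 = ∑ j, A k j * u j - ∑ j ∈ E, A k j * u j := by rw [h3]; ring
      rw [h4]
      exact cl_sub (h1 k) (cl_sum _ _ fun j hj => cl_mul (hA j hj) (hu j))
    by_cases hj2 : j = j2
    · rw [hj2]
      have h3 := hsplit v
      rw [hv1, hv2, mul_one, mul_zero, zero_add] at h3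
      have h4 : A k j2 = ∑ j, A k j * v j - ∑ j ∈ E, A k j * v j := by rw [h3]; ring
      rw [h4]
      exact cl_sub (h2 k) (cl_sum _ _ fun j hj => cl_mul (hA j hj) (hv j))
    · exact hA j (by rw [hE]; simp [hj1, hj2])

/-- **The count for a hyperbolic block.** -/
theorem hyp_count {N M c : ℕ} (hc : c ≤ M) (A : Fin (M + 1) → Fin (N + 1) → ℂ)
    (x : Fin c → Fin (M + 1) → ℂ)
    (H : Fin c → MvPolynomial (Fin (M + 1)) ℂ) (D : Fin c → ℕ) (n0 : ℕ) (hn0 : n0 ≠ 0)
    (u v : Fin (N + 1) → ℂ)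
    (j1 j2 : Fin (N + 1)) (hj : j1 ≠ j2) (hu1 : u j1 = 1) (hu2 : u j2 = 0) (hv1 : v j1 = 0)
    (hv2 : v j2 = 1) (h : Fin (M + 1) → ℂ) (α β : ℂ)
    (hα : (α = 0 ∧ β = 0) ∨ α = 1 ∨ (α = 0 ∧ β = 1))
    (h1 : ∀ k, ∑ j, A k j * u j = α * h k) (h2 : ∀ k, ∑ j, A k j * v j = β * h k)
    (h3 : h ≠ 0 → ∀ i, MvPolynomial.eval h (H i) + ∑ p, x i p / n0 * h p ^ D i = 0) :
    ∃ T : Finset ℂ, T.card + (M + c) ≤ (M + 1) * (N + 1) + c * (M + 1) ∧ ∀ S : Set ℂ,
      (T : Set ℂ) ⊆ cl S → (∀ j, u j ∈ cl S) → (∀ j, v j ∈ cl S) →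
      (∀ i m, (H i).coeff m ∈ cl S) → (∀ k j, A k j ∈ cl S) ∧ (∀ i p, x i p ∈ cl S) := by
  classical
  have hN : 1 ≤ N := by
    by_contra h0
    have : N = 0 := by omega
    subst this
    exact hj (Fin.ext (by omega))
  obtain ⟨T1, hT1, hT1'⟩ := matrix_count A u v j1 j2 hj hu1 hu2 hv1 hv2
  have e1 : (M + 1) * (N + 1) = (M + 1) * (N - 1) + 2 * (M + 1) := by
    obtain ⟨N', rfl⟩ := Nat.exists_eq_add_of_le' hN
    rw [Nat.add_sub_cancel]
    ring
  by_cases hh : h = 0 ∨ (α = 0 ∧ β = 0)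
  · -- the matrix kills both vectors
    refine ⟨T1 ∪ ((Finset.univ : Finset (Fin c)) ×ˢ (Finset.univ : Finset (Fin (M + 1)))).image
      (fun p => x p.1 p.2), ?_, ?_⟩
    · have e2 := Finset.card_union_le T1
        (((Finset.univ : Finset (Fin c)) ×ˢ (Finset.univ : Finset (Fin (M + 1)))).image
          (fun p => x p.1 p.2))
      have e3 := Finset.card_image_le
        (s := (Finset.univ : Finset (Fin c)) ×ˢ (Finset.univ : Finset (Fin (M + 1))))
        (f := fun p => x p.1 p.2)
      rw [Finset.card_product, Finset.card_univ, Finset.card_univ, Fintype.card_fin,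
        Fintype.card_fin] at e3
      rw [e1]
      omega
    · intro S hS hu hv _
      rw [Finset.coe_union, Set.union_subset_iff] at hS
      have z1 : ∀ k, α * h k = 0 := by
        intro k
        rcases hh with hh | hh
        · rw [hh, Pi.zero_apply, mul_zero]
        · rw [hh.1, zero_mul]
      have z2 : ∀ k, β * h k = 0 := by
        intro k
        rcases hh with hh | hh
        · rw [hh, Pi.zero_apply, mul_zero]
        · rw [hh.2, zero_mul]
      refine ⟨hT1' S hS.1 hu hv (fun k => ?_) (fun k => ?_), fun i p => hS.2 ?_⟩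
      · rw [h1, z1]; exact cl_zero S
      · rw [h2, z2]; exact cl_zero S
      · rw [Finset.mem_coe]
        exact Finset.mem_image.2 ⟨(i, p), Finset.mem_product.2
          ⟨Finset.mem_univ i, Finset.mem_univ p⟩, rfl⟩
  · push Not at hh
    obtain ⟨hh0, hαβ⟩ := hh
    obtain ⟨p0, hp0⟩ := Function.ne_iff.1 hh0
    have hp0' : h p0 ≠ 0 := hp0
    set T2 : Finset ℂ := ((Finset.univ : Finset (Fin c)) ×ˢ
      ((Finset.univ : Finset (Fin (M + 1))).erase p0)).image (fun p => x p.1 p.2) with hT2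
    have hT2c : T2.card ≤ c * M := by
      refine Finset.card_image_le.trans ?_
      rw [Finset.card_product, Finset.card_univ, Fintype.card_fin,
        Finset.card_erase_of_mem (Finset.mem_univ _), Finset.card_univ, Fintype.card_fin,
        Nat.add_sub_cancel]
    set T3 : Finset ℂ := (Finset.univ : Finset (Fin (M + 1))).image h with hT3
    have hT3c : T3.card ≤ M + 1 := by
      refine Finset.card_image_le.trans ?_
      rw [Finset.card_univ, Fintype.card_fin]
    refine ⟨T1 ∪ (T2 ∪ (T3 ∪ {β})), ?_, ?_⟩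
    · have e2 := Finset.card_union_le T1 (T2 ∪ (T3 ∪ {β}))
      have e3 := Finset.card_union_le T2 (T3 ∪ {β})
      have e4 := Finset.card_union_le T3 {β}
      rw [Finset.card_singleton] at e4
      have e5 : c * (M + 1) = c * M + c := by ring
      rw [e1, e5]
      omega
    · intro S hS hu hv hH
      rw [Finset.coe_union, Set.union_subset_iff, Finset.coe_union, Set.union_subset_iff,
        Finset.coe_union, Set.union_subset_iff] at hS
      obtain ⟨hS1, hS2, hS3, hS4⟩ := hS
      have hβ : β ∈ cl S := hS4 (by simp)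
      have hα' : α ∈ cl S := by
        rcases hα with hα | hα | hα
        · rw [hα.1]; exact cl_zero S
        · rw [hα]; exact cl_one S
        · rw [hα.1]; exact cl_zero S
      have hhS : ∀ k, h k ∈ cl S := fun k => hS3 (by
        rw [Finset.mem_coe]
        exact Finset.mem_image_of_mem h (Finset.mem_univ k))
      refine ⟨hT1' S hS1 hu hv (fun k => ?_) (fun k => ?_), fun i p => ?_⟩
      · rw [h1]; exact cl_mul hα' (hhS k)
      · rw [h2]; exact cl_mul hβ (hhS k)
      · have hx : ∀ p, p ≠ p0 → x i p ∈ cl S := fun p hp => hS2 (by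
          rw [Finset.mem_coe]
          exact Finset.mem_image.2 ⟨(i, p), Finset.mem_product.2
            ⟨Finset.mem_univ i, Finset.mem_erase.2 ⟨hp, Finset.mem_univ p⟩⟩, rfl⟩)
        by_cases hp : p = p0
        · rw [hp]
          have h4 := h3 hh0 i
          rw [← Finset.add_sum_erase _ _ (Finset.mem_univ p0)] at h4
          have hn0' : (n0 : ℂ) ≠ 0 := by exact_mod_cast hn0
          have hd : h p0 ^ D i ≠ 0 := pow_ne_zero _ hp0'
          have h5 : x i p0 = -(MvPolynomial.eval h (H i) +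
              ∑ p ∈ Finset.univ.erase p0, x i p / n0 * h p ^ D i) * n0 / h p0 ^ D i := by
            generalize ∑ p ∈ Finset.univ.erase p0, x i p / n0 * h p ^ D i = y at h4
            rw [eq_div_iff hd]
            field_simp at h4
            linear_combination h4
          rw [h5]
          refine cl_div (cl_mul (cl_neg (cl_add (cl_eval (hH i) hhS) ?_)) (cl_nat S n0))
            (cl_pow (hhS p0) _)
          refine cl_sum _ _ fun p hp => ?_
          rw [Finset.mem_erase] at hp
          exact cl_mul (cl_div (hx p hp.1) (cl_nat S n0)) (cl_pow (hhS p) _)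
        · exact hx p hp

end Pool.Agent.H20.CI
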