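import Mathlib

/-! Algebraic closures of sets of complex numbers, as closures in the matroid of algebraic
independence over the rational numbers. -/

set_option autoImplicit false

namespace Pool.Agent.H20.CI

open Polynomial

/-- the numbers that are algebraic over the field generated by `S` -/
noncomputable def cl (S : Set ℂ) : Set ℂ := (AlgebraicIndependent.matroid ℚ ℂ).closure S

lemma mem_cl {S : Set ℂ} {z : ℂ} : z ∈ cl S ↔ IsAlgebraic (Algebra.adjoin ℚ S) z := by
  unfold cl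
  rw [AlgebraicIndependent.matroid_closure_eq]
  rfl

lemma subset_cl (S : Set ℂ) : S ⊆ cl S := by
  intro z hz
  rw [mem_cl]
  exact isAlgebraic_algebraMap (⟨z, Algebra.subset_adjoin hz⟩ : Algebra.adjoin ℚ S)

lemma cl_idem (S : Set ℂ) : cl (cl S) = cl S :=
  (AlgebraicIndependent.matroid ℚ ℂ).closure_closure S

lemma cl_mono {S T : Set ℂ} (h : S ⊆ T) : cl S ⊆ cl T :=
  (AlgebraicIndependent.matroid ℚ ℂ).closure_subset_closure h

lemma cl_add {S : Set ℂ} {z w : ℂ} (hz : z ∈ cl S) (hw : w ∈ cl S) : z + w ∈ cl S := by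
  rw [mem_cl] at *
  exact hz.add hw

lemma cl_mul {S : Set ℂ} {z w : ℂ} (hz : z ∈ cl S) (hw : w ∈ cl S) : z * w ∈ cl S := by
  rw [mem_cl] at *
  exact hz.mul hw

lemma cl_nat (S : Set ℂ) (n : ℕ) : (n : ℂ) ∈ cl S := by
  rw [mem_cl]
  exact isAlgebraic_natCast n

lemma cl_neg {S : Set ℂ} {z : ℂ} (hz : z ∈ cl S) : -z ∈ cl S := by
  rw [mem_cl] at *
  exact hz.neg

lemma cl_inv {S : Set ℂ} {z : ℂ} (hz : z ∈ cl S) : z⁻¹ ∈ cl S := by
  rw [mem_cl] at *
  exact hz.inv

lemma cl_pow {S : Set ℂ} {z : ℂ} (hz : z ∈ cl S) (n : ℕ) : z ^ n ∈ cl S := by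
  rw [mem_cl] at *
  exact hz.pow n

lemma cl_sum {S : Set ℂ} {α : Type*} (s : Finset α) (f : α → ℂ) (h : ∀ i ∈ s, f i ∈ cl S) :
    ∑ i ∈ s, f i ∈ cl S := by
  classical
  induction s using Finset.induction_on with
  | empty => simpa using cl_nat S 0
  | insert a s ha ih =>
    rw [Finset.sum_insert ha]
    exact cl_add (h a (Finset.mem_insert_self a s))
      (ih fun i hi => h i (Finset.mem_insert_of_mem hi))

/-- the closure is algebraically closed in `ℂ` -/
lemma cl_root {S : Set ℂ} {p : ℂ[X]} (hp : p ≠ 0) (hc : ∀ i, p.coeff i ∈ cl S) {z : ℂ}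
    (hz : p.eval z = 0) : z ∈ cl S := by
  rw [← cl_idem, mem_cl]
  set A := Algebra.adjoin ℚ (cl S) with hA
  have hl : p ∈ Polynomial.lifts (algebraMap A ℂ) := by
    rw [Polynomial.lifts_iff_coeff_lifts]
    intro n
    exact ⟨⟨p.coeff n, Algebra.subset_adjoin (hc n)⟩, rfl⟩
  obtain ⟨q, hq⟩ := hl
  refine ⟨q, ?_, ?_⟩
  · rintro rfl
    apply hp
    rw [← hq]
    simp
  · rw [aeval_def, ← eval_map]
    have : q.map (algebraMap A ℂ) = p := hq
    rw [this, hz]

lemma indep_card {ι : Type*} [Fintype ι] {x : ι → ℂ} (hx : AlgebraicIndependent ℚ x)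
    (S : Finset ℂ) (h : ∀ i, x i ∈ cl (S : Set ℂ)) : Fintype.card ι ≤ S.card := by
  set M := AlgebraicIndependent.matroid ℚ ℂ with hM
  have hI : M.Indep (Set.range x) := by
    rw [AlgebraicIndependent.matroid_indep_iff]
    exact hx.coe_range
  have h1 : (Set.range x).encard = Fintype.card ι := by
    rw [← Set.image_univ, hx.injective.injOn.encard_image, Set.encard_univ, ENat.card_eq_coe_fintype_card]
  have h2 : (Set.range x).encard ≤ (S : Set ℂ).encard := by
    rw [← hI.eRk_eq_encard]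
    calc M.eRk (Set.range x) ≤ M.eRk (M.closure (S : Set ℂ)) := M.eRk_mono (by
            rintro _ ⟨i, rfl⟩; exact h i)
      _ = M.eRk (S : Set ℂ) := M.eRk_closure_eq _
      _ ≤ _ := M.eRk_le_encard _
  rw [h1, Set.encard_coe_eq_coe_finsetCard] at h2
  exact_mod_cast h2

end Pool.Agent.H20.CI
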