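import Pool.Graph.R_pool_sql_team_seeded_35f281b4.K7.H11.LM.Fin
import Pool.Graph.R_pool_sql_team_seeded_35f281b4.K7.H11.LM.Zf

/-! Curves in pull-backs of hyperbolic varieties under linear maps. -/

set_option autoImplicit false

namespace Pool.Agent.H20.CI

open MvPolynomial
open Pool.Agent.K7.H11.GG
open Pool.Agent.K7.H11.LM

/-- the linear form with the coefficients `c` -/
noncomputable def lf {N : ℕ} (c : Fin (N + 1) → ℂ) : MvPolynomial (Fin (N + 1)) ℂ :=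
  ∑ j : Fin (N + 1), C (c j) * X j

lemma eval_lf {N : ℕ} (c x : Fin (N + 1) → ℂ) : eval x (lf c) = ∑ j, c j * x j := by
  unfold lf
  rw [map_sum]
  refine Finset.sum_congr rfl fun j _ => ?_
  rw [map_mul, eval_C, eval_X]

lemma hom_lf {N : ℕ} (c : Fin (N + 1) → ℂ) : (lf c).IsHomogeneous 1 := by
  unfold lf
  refine IsHomogeneous.sum _ _ _ fun j _ => ?_
  have h2 := (isHomogeneous_C (Fin (N + 1)) (c j)).mul (isHomogeneous_X ℂ j)
  simpa using h2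

/-- curves in the cone over a hyperbolic variety -/
theorem cone_curve {M : ℕ} {ι : Type} (H : ι → MvPolynomial (Fin (M + 1)) ℂ)
    (hH : ∀ j, IsForm (H j)) (hB : Brody H) (g : ℂ → Fin (M + 1) → ℂ) (hg : Differentiable ℂ g)
    (hgH : ∀ z j, eval (g z) (H j) = 0) (z w : ℂ) :
    ∃ (h : Fin (M + 1) → ℂ) (α β : ℂ), g z = α • h ∧ g w = β • h ∧
      ∀ j, eval h (H j) = 0 := by
  by_cases hw : g w = 0
  · exact ⟨g z, 1, 0, (one_smul _ _).symm, by rw [hw, zero_smul], hgH z⟩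
  · obtain ⟨k, G, hk, hG, hG0, hfac, hkw⟩ := factor hg hw
    have h1 : ∀ ζ j, eval (G ζ) (H j) = 0 := by
      intro ζ j
      obtain ⟨D, hD⟩ := hH j
      have h2 : ∀ ζ ∈ (Set.univ : Set ℂ), k ζ ^ D * eval (G ζ) (H j) = 0 := by
        intro ζ _
        rw [← eval_smul_hom hD, ← hfac, hgH]
      rcases AnalyticOnNhd.eq_zero_or_eq_zero_of_mul_eq_zero
        (f := fun ζ => k ζ ^ D) (g := fun ζ => eval (G ζ) (H j))
        (fun x _ => ((hk.pow D).analyticAt x)) (fun x _ => ((diff_eval hG (H j)).analyticAt x))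
        h2 isPreconnected_univ with h3 | h3
      · exact absurd (h3 w (Set.mem_univ w)) (pow_ne_zero D hkw)
      · exact h3 ζ (Set.mem_univ ζ)
    obtain ⟨c, hc⟩ := hB G hG hG0 h1 z w
    refine ⟨G w, k z * c, k w, ?_, hfac w, h1 w⟩
    rw [hfac z, hc, smul_smul]

/-- normalisation of the factors -/
theorem normal {M : ℕ} {ι : Type} (H : ι → MvPolynomial (Fin (M + 1)) ℂ)
    (hH : ∀ j, IsForm (H j)) (h0 : Fin (M + 1) → ℂ) (α0 β0 : ℂ) (hh : ∀ j, eval h0 (H j) = 0) :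
    ∃ (h : Fin (M + 1) → ℂ) (α β : ℂ), ((α = 0 ∧ β = 0) ∨ α = 1 ∨ (α = 0 ∧ β = 1)) ∧
      α0 • h0 = α • h ∧ β0 • h0 = β • h ∧ ∀ j, eval h (H j) = 0 := by
  have hs : ∀ (c : ℂ) j, eval (c • h0) (H j) = 0 := fun c j => eval_smul' (hH j) (hh j) c
  by_cases h1 : α0 = 0
  · by_cases h2 : β0 = 0
    · exact ⟨h0, 0, 0, Or.inl ⟨rfl, rfl⟩, by rw [h1], by rw [h2], hh⟩
    · refine ⟨β0 • h0, 0, 1, Or.inr (Or.inr ⟨rfl, rfl⟩), ?_, (one_smul _ _).symm, hs β0⟩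
      rw [h1, zero_smul, zero_smul]
  · refine ⟨α0 • h0, 1, β0 / α0, Or.inr (Or.inl rfl), (one_smul _ _).symm, ?_, hs α0⟩
    rw [smul_smul]
    congr 1
    field_simp

/-- small perturbations of a hyperbolic system -/
theorem perturb {M c : ℕ} (H : Fin c → MvPolynomial (Fin (M + 1)) ℂ) (D : Fin c → ℕ)
    (hH : ∀ j, (H j).IsHomogeneous (D j)) (hB : Brody H) (x : Fin c → Fin (M + 1) → ℂ) :
    ∃ n1 : ℕ, ∀ n0 : ℕ, n1 ≤ n0 →
      (∀ j, (H j + ∑ p, C (x j p / n0) * X p ^ D j).IsHomogeneous (D j)) ∧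
      Brody (fun j => H j + ∑ p, C (x j p / n0) * X p ^ D j) := by
  obtain ⟨ε, hε, hopen⟩ := open_brody (fun j => ⟨D j, hH j⟩) hB
  set B : ℝ := ∑ j, ∑ p, ‖x j p‖ with hBdef
  obtain ⟨n1, hn1⟩ := exists_nat_gt (B / ε)
  have hB0 : 0 ≤ B := Finset.sum_nonneg fun j _ => Finset.sum_nonneg fun p _ => norm_nonneg _
  have hhom : ∀ n0 : ℕ, ∀ j, (H j + ∑ p, C (x j p / n0) * X p ^ D j).IsHomogeneous (D j) := by
    intro n0 j
    refine (hH j).add (IsHomogeneous.sum _ _ _ fun p _ => ?_)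
    have h1 := (isHomogeneous_C (Fin (M + 1)) (x j p / n0)).mul ((isHomogeneous_X ℂ p).pow (D j))
    simpa using h1
  refine ⟨n1, fun n0 hn0 => ⟨hhom n0, hopen _ (fun j => ⟨D j, hhom n0 j⟩) fun j u hu => ?_⟩⟩
  have hn0' : B / ε < n0 := lt_of_lt_of_le hn1 (by exact_mod_cast hn0)
  have hn0p : (0 : ℝ) < n0 := lt_of_le_of_lt (div_nonneg hB0 hε.le) hn0'
  rw [map_add, add_sub_cancel_left, map_sum]
  have h1 : ∀ p ∈ (Finset.univ : Finset (Fin (M + 1))),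
      ‖eval u (C (x j p / n0) * X p ^ D j)‖ ≤ ‖x j p‖ / n0 := by
    intro p _
    rw [map_mul, eval_C, map_pow, eval_X, norm_mul, norm_div, norm_pow, Complex.norm_natCast]
    have h2 : ‖u p‖ ^ D j ≤ 1 := pow_le_one₀ (norm_nonneg _) ((norm_le_pi_norm u p).trans hu)
    calc ‖x j p‖ / n0 * ‖u p‖ ^ D j ≤ ‖x j p‖ / n0 * 1 := by gcongr
      _ = _ := mul_one _
  refine (norm_sum_le _ _).trans ((Finset.sum_le_sum h1).trans ?_)
  rw [← Finset.sum_div, div_le_iff₀ hn0p]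
  have h3 : ∑ p, ‖x j p‖ ≤ B := Finset.single_le_sum (f := fun j => ∑ p, ‖x j p‖)
    (fun j _ => Finset.sum_nonneg fun p _ => norm_nonneg _) (Finset.mem_univ j)
  rw [div_lt_iff₀ hε] at hn0'
  linarith

end Pool.Agent.H20.CI
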