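import Pool.Agent.H20.CI.Wbk
import Pool.Agent.H20.CI.Cur
import Pool.Graph.R_seed8.H159R3.War.Main

/-! Generic linear pull-backs of hyperbolic varieties, and generic sums of powers of linear forms. -/

set_option autoImplicit false

namespace Pool.Agent.H20.CI

open MvPolynomial
open Pool.Agent.K7.H11.GG
open Pool.Agent.K7.H11.LM

/-- a basis of the span of two independent vectors adapted to two coordinates -/
lemma adapted {N : ℕ} (x y : Fin (N + 1) → ℂ) (hxy : LinearIndependent ℂ ![x, y]) :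
    ∃ (j1 j2 : Fin (N + 1)) (a b c d : ℂ), j1 ≠ j2 ∧ (a • x + b • y) j1 = 1 ∧
      (a • x + b • y) j2 = 0 ∧ (c • x + d • y) j1 = 0 ∧ (c • x + d • y) j2 = 1 := by
  obtain ⟨j1, j2, hD⟩ : ∃ j1 j2, x j1 * y j2 - x j2 * y j1 ≠ 0 := by
    by_contra hc
    push Not at hc
    rw [LinearIndependent.pair_iff] at hxy
    have hx0 : x ≠ 0 := by
      rintro rfl
      exact one_ne_zero (hxy 1 0 (by simp)).1
    obtain ⟨j, hj⟩ := Function.ne_iff.1 hx0
    have h1 := hxy (y j) (-(x j)) (by
      funext k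
      rw [Pi.add_apply, Pi.smul_apply, Pi.smul_apply, smul_eq_mul, smul_eq_mul, Pi.zero_apply]
      linear_combination -(hc j k))
    exact hj (neg_eq_zero.1 h1.2)
  set D := x j1 * y j2 - x j2 * y j1 with hDdef
  refine ⟨j1, j2, y j2 / D, -(x j2) / D, -(y j1) / D, x j1 / D, ?_, ?_, ?_, ?_, ?_⟩
  · rintro rfl
    apply hD
    rw [hDdef]; ring
  · rw [Pi.add_apply, Pi.smul_apply, Pi.smul_apply, smul_eq_mul, smul_eq_mul]
    field_simp
    rw [hDdef]; ring
  · rw [Pi.add_apply, Pi.smul_apply, Pi.smul_apply, smul_eq_mul, smul_eq_mul]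
    field_simp
    ring
  · rw [Pi.add_apply, Pi.smul_apply, Pi.smul_apply, smul_eq_mul, smul_eq_mul]
    field_simp
    ring
  · rw [Pi.add_apply, Pi.smul_apply, Pi.smul_apply, smul_eq_mul, smul_eq_mul]
    field_simp
    rw [hDdef]; ring

/-- **The main construction.** -/
theorem exists_system (N m q : ℕ) (M c : Fin m → ℕ) (hc : ∀ i, c i ≤ M i)
    (D : (i : Fin m) → Fin (c i) → ℕ)
    (H : (i : Fin m) → Fin (c i) → MvPolynomial (Fin (M i + 1)) ℂ)
    (hH : ∀ i j, (H i j).IsHomogeneous (D i j)) (hB : ∀ i, Brody (H i))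
    (δ s : Fin q → ℕ) (hδ : ∀ l, 1 ≤ δ l) (hs : ∀ l, (s l - 1) ^ 2 ≤ δ l)
    (hs2 : ∀ l, s l ≤ δ l + 1)
    (hcount : 2 * N ≤ ∑ i, (M i + c i) + ∑ l, s l + 1) :
    ∃ G : (Σ i, Fin (c i)) ⊕ Fin q → MvPolynomial (Fin (N + 1)) ℂ,
      (∀ j, (G j).IsHomogeneous (Sum.elim (fun p : Σ i, Fin (c i) => D p.1 p.2) δ j)) ∧
      Brody G := by
  classical
  -- the coefficients
  set K0 : Finset ℂ := Finset.univ.biUnion fun i : Fin m => Finset.univ.biUnion fun j : Fin (c i) =>
    (H i j).support.image (fun e => (H i j).coeff e) with hK0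
  have hK0m : ∀ i j e, (H i j).coeff e ∈ cl (K0 : Set ℂ) := by
    intro i j e
    by_cases he : (H i j).coeff e = 0
    · rw [he]; exact cl_zero _
    · refine subset_cl _ ?_
      rw [Finset.mem_coe, hK0, Finset.mem_biUnion]
      refine ⟨i, Finset.mem_univ i, ?_⟩
      rw [Finset.mem_biUnion]
      refine ⟨j, Finset.mem_univ j, ?_⟩
      exact Finset.mem_image.2 ⟨e, mem_support_iff.2 he, rfl⟩
  obtain ⟨x, hx⟩ := exists_indep_over K0 ((Σ i : Fin m, Fin (M i + 1) × Fin (N + 1)) ⊕
    ((Σ i : Fin m, Fin (c i) × Fin (M i + 1)) ⊕ (Σ l : Fin q, Fin (s l) × Fin (N + 1))))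
  obtain ⟨A, hA⟩ : ∃ A : (i : Fin m) → Fin (M i + 1) → Fin (N + 1) → ℂ,
      A = fun i k j => x (Sum.inl ⟨i, (k, j)⟩) := ⟨_, rfl⟩
  obtain ⟨E, hE⟩ : ∃ E : (i : Fin m) → Fin (c i) → Fin (M i + 1) → ℂ,
      E = fun i k j => x (Sum.inr (Sum.inl ⟨i, (k, j)⟩)) := ⟨_, rfl⟩
  obtain ⟨W, hW⟩ : ∃ W : (l : Fin q) → Fin (s l) → Fin (N + 1) → ℂ,
      W = fun l k j => x (Sum.inr (Sum.inr ⟨l, (k, j)⟩)) := ⟨_, rfl⟩
  -- the perturbations
  have hp := fun i => perturb (H i) (D i) (hH i) (hB i) (E i)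
  choose n1 hn1 using hp
  obtain ⟨n0, hn0⟩ : ∃ n0 : ℕ, n0 = ∑ i, n1 i + 1 := ⟨_, rfl⟩
  have hn0' : n0 ≠ 0 := by omega
  have hn0i : ∀ i, n1 i ≤ n0 := by
    intro i
    have := Finset.single_le_sum (f := n1) (fun i _ => Nat.zero_le _) (Finset.mem_univ i)
    omega
  obtain ⟨H', hH'⟩ : ∃ H' : (i : Fin m) → Fin (c i) → MvPolynomial (Fin (M i + 1)) ℂ,
      H' = fun i j => H i j + ∑ p, C (E i j p / n0) * X p ^ D i j := ⟨_, rfl⟩
  have hH'h : ∀ i j, (H' i j).IsHomogeneous (D i j) := by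
    rw [hH']
    exact fun i j => (hn1 i n0 (hn0i i)).1 j
  have hH'B : ∀ i, Brody (H' i) := by
    rw [hH']
    exact fun i => (hn1 i n0 (hn0i i)).2
  have hH'e : ∀ i j h, eval h (H' i j) = eval h (H i j) + ∑ p, E i j p / n0 * h p ^ D i j := by
    intro i j h
    rw [hH', map_add, map_sum]
    congr 1
    refine Finset.sum_congr rfl fun p _ => ?_
    rw [map_mul, eval_C, map_pow, eval_X]
  -- the forms
  set GW : Fin q → MvPolynomial (Fin (N + 1)) ℂ := fun l => ∑ k, lf (W l k) ^ δ l with hGW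
  set GH : (Σ i, Fin (c i)) → MvPolynomial (Fin (N + 1)) ℂ :=
    fun p => bind₁ (fun k => lf (A p.1 k)) (H' p.1 p.2) with hGH
  have hGHe : ∀ (i : Fin m) (j : Fin (c i)) y, eval y (GH ⟨i, j⟩) =
      eval (fun k => ∑ j, A i k j * y j) (H' i j) := by
    intro i j y
    rw [hGH, ← coe_aeval_eq_eval, ← coe_aeval_eq_eval]
    change aeval y (bind₁ (fun k => lf (A i k)) (H' i j)) = _
    rw [aeval_bind₁]
    change _ = aeval (fun k => ∑ j, A i k j * y j) (H' i j)
    congr 2
    funext k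
    exact eval_lf _ _
  have hGWe : ∀ l y, eval y (GW l) = ∑ k, (∑ j, W l k j * y j) ^ δ l := by
    intro l y
    rw [hGW, map_sum]
    refine Finset.sum_congr rfl fun k _ => ?_
    rw [map_pow, eval_lf]
  refine ⟨Sum.elim GH GW, ?_, ?_⟩
  · rintro (⟨i, j⟩ | l)
    · have h1 := hom_bind (hH'h i j) (L := fun k => lf (A i k)) (fun k => hom_lf (A i k))
      rw [one_mul] at h1
      exact h1
    · refine IsHomogeneous.sum _ _ _ fun k _ => ?_
      simpa using (hom_lf (W l k)).pow (δ l)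
  · intro f hf hf0 hfG
    by_contra hcon
    push Not at hcon
    obtain ⟨z, w, hzw⟩ := hcon
    have hind : LinearIndependent ℂ ![f z, f w] := by
      rw [LinearIndependent.pair_iff]
      intro a b hab
      have ha : a = 0 := by
        by_contra ha
        refine hzw (-(b / a)) ?_
        have h1 : a • f z = -(b • f w) := eq_neg_of_add_eq_zero_left hab
        have h2 : f z = a⁻¹ • (a • f z) := by rw [smul_smul, inv_mul_cancel₀ ha, one_smul]
        rw [h2, h1, smul_neg, smul_smul, neg_smul, div_eq_inv_mul]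
      refine ⟨ha, ?_⟩
      rw [ha, zero_smul, zero_add] at hab
      exact (smul_eq_zero.1 hab).resolve_right (hf0 w)
    obtain ⟨j1, j2, a, b, a', b', hj, hu1, hu2, hv1, hv2⟩ := adapted _ _ hind
    obtain ⟨u, hu⟩ : ∃ u, u = a • f z + b • f w := ⟨_, rfl⟩
    obtain ⟨v, hv⟩ : ∃ v, v = a' • f z + b' • f w := ⟨_, rfl⟩
    rw [← hu] at hu1 hu2
    rw [← hv] at hv1 hv2
    have hN : 1 ≤ N := by
      by_contra h0
      have : N = 0 := by omega
      subst this
      exact hj (Fin.ext (by omega))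
    -- linear forms on the line
    have hlin : ∀ (r : Fin (N + 1) → ℂ) (p p' : ℂ), ∑ j, r j * (p • f z + p' • f w) j =
        p * (∑ j, r j * f z j) + p' * ∑ j, r j * f w j := by
      intro r p p'
      rw [Finset.mul_sum, Finset.mul_sum, ← Finset.sum_add_distrib]
      refine Finset.sum_congr rfl fun j _ => ?_
      rw [Pi.add_apply, Pi.smul_apply, Pi.smul_apply, smul_eq_mul, smul_eq_mul]
      ring
    -- the hyperbolic blocks
    have hTH : ∀ i, ∃ T : Finset ℂ,
        T.card + (M i + c i) ≤ (M i + 1) * (N + 1) + c i * (M i + 1) ∧ ∀ S : Set ℂ,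
        (T : Set ℂ) ⊆ cl S → (∀ j, u j ∈ cl S) → (∀ j, v j ∈ cl S) →
        (∀ j e, (H i j).coeff e ∈ cl S) →
        (∀ k j, A i k j ∈ cl S) ∧ (∀ j p, E i j p ∈ cl S) := by
      intro i
      have hform : ∀ j, IsForm (H' i j) := fun j => ⟨_, hH'h i j⟩
      obtain ⟨h0, α0, β0, e1, e2, e3⟩ := cone_curve (H' i) hform (hH'B i)
        (fun ζ k => ∑ j, A i k j * f ζ j) (by
          rw [differentiable_pi]
          intro k
          exact Differentiable.fun_sum fun j _ => (differentiable_pi.1 hf j).const_mul _)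
        (fun ζ j => by
          rw [← hGHe]
          exact hfG ζ (Sum.inl ⟨i, j⟩)) z w
      obtain ⟨h, α, β, hαβ, e4, e5, e6⟩ := normal (H' i) hform h0 (a * α0 + b * β0)
        (a' * α0 + b' * β0) e3
      refine hyp_count (hc i) (A i) (E i) (H i) (D i) n0 hn0' u v j1 j2 hj hu1 hu2 hv1 hv2 h α β
        hαβ ?_ ?_ ?_
      · intro k
        rw [hu, hlin]
        have g1 : ∑ j, A i k j * f z j = α0 * h0 k := congrFun e1 k
        have g2 : ∑ j, A i k j * f w j = β0 * h0 k := congrFun e2 k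
        have g3 := congrFun e4 k
        rw [Pi.smul_apply, Pi.smul_apply, smul_eq_mul, smul_eq_mul] at g3
        rw [g1, g2, ← g3]
        ring
      · intro k
        rw [hv, hlin]
        have g1 : ∑ j, A i k j * f z j = α0 * h0 k := congrFun e1 k
        have g2 : ∑ j, A i k j * f w j = β0 * h0 k := congrFun e2 k
        have g3 := congrFun e5 k
        rw [Pi.smul_apply, Pi.smul_apply, smul_eq_mul, smul_eq_mul] at g3
        rw [g1, g2, ← g3]
        ring
      · intro _ j
        rw [← hH'e]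
        exact e6 j
    -- the sums of powers
    have hTW : ∀ l, ∃ T : Finset ℂ, T.card + s l ≤ s l * (N + 1) ∧ ∀ S : Set ℂ,
        (T : Set ℂ) ⊆ cl S → (∀ j, u j ∈ cl S) → (∀ j, v j ∈ cl S) → ∀ k j, W l k j ∈ cl S := by
      intro l
      refine waring_count (hδ l) (hs2 l) (W l) u v j1 j2 hj hu1 hu2 hv1 hv2 fun σ τ => ?_
      have hsmall : Pool.Agent.H159R3.War.SmallWaring (GW l) := ⟨δ l, s l, W l, hδ l, hs l, rfl⟩
      have h1 := Pool.Agent.H159R3.War.span_in hsmall f hf (fun ζ => hfG ζ (Sum.inr l))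
        (σ * a + τ * a') (σ * b + τ * b') z w
      rw [hGWe] at h1
      rw [← h1]
      refine Finset.sum_congr rfl fun k _ => ?_
      congr 1
      rw [hlin, hu, hv, hlin, hlin]
      ring
    choose TH hTH1 hTH2 using hTH
    choose TW hTW1 hTW2 using hTW
    -- the coordinates of the line
    set F : Finset (Fin (N + 1)) := (Finset.univ.erase j1).erase j2 with hF
    have hFc : F.card = N - 1 := by
      rw [hF, Finset.card_erase_of_mem (Finset.mem_erase.2 ⟨hj.symm, Finset.mem_univ _⟩),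
        Finset.card_erase_of_mem (Finset.mem_univ _), Finset.card_univ, Fintype.card_fin]
      omega
    set S0 : Finset ℂ := F.image u ∪ F.image v with hS0
    have hS0c : S0.card ≤ 2 * (N - 1) := by
      refine (Finset.card_union_le _ _).trans ?_
      have h1 := Finset.card_image_le (s := F) (f := u)
      have h2 := Finset.card_image_le (s := F) (f := v)
      omega
    set T : Finset ℂ := S0 ∪ (Finset.univ.biUnion TH ∪ Finset.univ.biUnion TW) with hT
    have hTc : T.card ≤ 2 * (N - 1) + (∑ i, (TH i).card + ∑ l, (TW l).card) := by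
      refine (Finset.card_union_le _ _).trans (add_le_add hS0c ?_)
      refine (Finset.card_union_le _ _).trans (add_le_add ?_ ?_)
      · exact Finset.card_biUnion_le
      · exact Finset.card_biUnion_le
    set S : Set ℂ := (K0 : Set ℂ) ∪ T with hS
    have hTS : (T : Set ℂ) ⊆ cl S := fun y hy => subset_cl _ (Or.inr hy)
    have hKS : ∀ i j e, (H i j).coeff e ∈ cl S := fun i j e =>
      cl_mono (Set.subset_union_left) (hK0m i j e)
    have hus : ∀ j, u j ∈ cl S := by
      intro j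
      by_cases h1 : j = j1
      · rw [h1, hu1]; exact cl_one S
      by_cases h2 : j = j2
      · rw [h2, hu2]; exact cl_zero S
      refine hTS ?_
      rw [Finset.mem_coe, hT, hS0, Finset.mem_union, Finset.mem_union]
      exact Or.inl (Or.inl (Finset.mem_image_of_mem _ (by simp [hF, h1, h2])))
    have hvs : ∀ j, v j ∈ cl S := by
      intro j
      by_cases h1 : j = j1
      · rw [h1, hv1]; exact cl_zero S
      by_cases h2 : j = j2
      · rw [h2, hv2]; exact cl_one S
      refine hTS ?_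
      rw [Finset.mem_coe, hT, hS0, Finset.mem_union, Finset.mem_union]
      exact Or.inl (Or.inr (Finset.mem_image_of_mem _ (by simp [hF, h1, h2])))
    have hTHS : ∀ i, (TH i : Set ℂ) ⊆ cl S := fun i y hy => hTS (by
      rw [Finset.mem_coe, hT]
      exact Finset.mem_union_right _ (Finset.mem_union_left _
        (Finset.mem_biUnion.2 ⟨i, Finset.mem_univ i, hy⟩)))
    have hTWS : ∀ l, (TW l : Set ℂ) ⊆ cl S := fun l y hy => hTS (by
      rw [Finset.mem_coe, hT]
      exact Finset.mem_union_right _ (Finset.mem_union_right _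
        (Finset.mem_biUnion.2 ⟨l, Finset.mem_univ l, hy⟩)))
    have hall := hx T (by
      rintro (⟨i, k, j⟩ | ⟨i, k, j⟩ | ⟨l, k, j⟩)
      · have h1 := (hTH2 i S (hTHS i) hus hvs (hKS i)).1 k j
        rw [hA] at h1
        exact h1
      · have h1 := (hTH2 i S (hTHS i) hus hvs (hKS i)).2 k j
        rw [hE] at h1
        exact h1
      · have h1 := hTW2 l S (hTWS l) hus hvs k j
        rw [hW] at h1
        exact h1)
    rw [Fintype.card_sum, Fintype.card_sum, Fintype.card_sigma, Fintype.card_sigma,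
      Fintype.card_sigma] at hall
    simp only [Fintype.card_prod, Fintype.card_fin] at hall
    have g1 : ∑ i, ((TH i).card + (M i + c i)) ≤
        ∑ i, ((M i + 1) * (N + 1) + c i * (M i + 1)) := Finset.sum_le_sum fun i _ => hTH1 i
    have g2 : ∑ l, ((TW l).card + s l) ≤ ∑ l, s l * (N + 1) :=
      Finset.sum_le_sum fun l _ => hTW1 l
    rw [Finset.sum_add_distrib, Finset.sum_add_distrib (f := fun i => (M i + 1) * (N + 1))] at g1
    rw [Finset.sum_add_distrib] at g2
    omega

end Pool.Agent.H20.CI
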