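import Pool.Agent.H20.CI.Cl

/-! Finite families of algebraically independent complex numbers. -/

set_option autoImplicit false

namespace Pool.Agent.H20.CI

open Cardinal

theorem exists_indep (κ : Type) [Finite κ] : ∃ x : κ → ℂ, AlgebraicIndependent ℚ x := by
  obtain ⟨s, hs⟩ := exists_isTranscendenceBasis ℚ ℂ
  have hinf : Infinite s := by
    by_contra hfin
    rw [not_infinite_iff_finite] at hfin
    have h1 := IsAlgClosed.cardinal_le_max_transcendence_basis (R := ℚ) (K := ℂ)
      (v := ((↑) : s → ℂ)) hs
    rw [Cardinal.mk_complex] at h1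
    have h2 : #s < ℵ₀ := Cardinal.lt_aleph0_iff_finite.2 hfin
    have h3 : #ℚ = ℵ₀ := Cardinal.mkRat
    rw [h3] at h1
    simp only [Cardinal.lift_id] at h1
    rw [max_eq_left h2.le, max_self] at h1
    exact absurd Cardinal.aleph0_lt_continuum (not_lt.2 h1)
  obtain ⟨m, ⟨e⟩⟩ := Finite.exists_equiv_fin κ
  exact ⟨fun k => (Infinite.natEmbedding s (e k) : ℂ), hs.1.comp
    (fun k => Infinite.natEmbedding s (e k)) (fun k l h => by
      have := (Infinite.natEmbedding s).injective h
      exact e.injective (Fin.ext this))⟩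

end Pool.Agent.H20.CI
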