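import Pool.Graph.R_pool_sql_team_seeded_35f281b4.K7.H11.LM.Fin

/-! From one hyperbolic system of forms in projective space to open sets of hyperbolic systems on
arbitrary projective varieties (the proof of `Pool.Agent.K7.H11.LM.final`, for arbitrary systems). -/

set_option autoImplicit false

namespace Pool.Agent.H20.CI

open MvPolynomial
open Pool.Agent.K7.H11.GG
open Pool.Agent.K7.H11.LM

/-- **Extension to projective varieties, and openness.** -/
theorem extend {M : ℕ} {ι : Type} [Fintype ι] (d : ι → ℕ)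
    (G : ι → MvPolynomial (Fin (M + 1)) ℂ)
    (hG : ∀ l, (G l).IsHomogeneous (d l)) (hB0 : Brody G)
    (N : ℕ) (S : Set (MvPolynomial (Fin (N + 1)) ℂ)) (hS : ∀ p ∈ S, ∃ a, p.IsHomogeneous a)
    (e : ℕ) (he : 1 ≤ e) (L : Fin (M + 1) → MvPolynomial (Fin (N + 1)) ℂ)
    (hL : ∀ i, (L i).IsHomogeneous e)
    (hL0 : ∀ x, x ≠ 0 → (∀ p ∈ S, eval x p = 0) → ∃ i, eval x (L i) ≠ 0) :
    ∃ F0 : ι → MvPolynomial (Fin (N + 1)) ℂ, (∀ l, (F0 l).IsHomogeneous (e * d l)) ∧
      ∃ ε : ℝ, 0 < ε ∧ ∀ F : ι → MvPolynomial (Fin (N + 1)) ℂ,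
        (∀ l, (F l).IsHomogeneous (e * d l)) →
        (∀ l m, ‖(F l).coeff m - (F0 l).coeff m‖ < ε) →
        ∀ f : ℂ → (Fin (N + 1) → ℂ), Differentiable ℂ f → (∀ z, f z ≠ 0) →
          (∀ z, ∀ p ∈ S, eval (f z) p = 0) → (∀ z l, eval (f z) (F l) = 0) →
          ∀ z w, ∃ c : ℂ, f z = c • f w := by
  classical
  set F0 : ι → MvPolynomial (Fin (N + 1)) ℂ := fun l => bind₁ L (G l) with hF0
  have hF0h : ∀ l, (F0 l).IsHomogeneous (e * d l) := fun l => hom_bind (hG l) hL
  refine ⟨F0, hF0h, ?_⟩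
  -- the family with the equations of `Y`
  set Φ : S ⊕ ι → MvPolynomial (Fin (N + 1)) ℂ := Sum.elim (fun p => p.1) F0 with hΦ
  have hΦf : ∀ j, IsForm (Φ j) := by
    rintro (p | l)
    · exact hS p.1 p.2
    · exact ⟨_, hF0h l⟩
  have hΦB : Brody Φ := by
    intro f hf hf0 hfΦ z w
    have hfS : ∀ z, ∀ p ∈ S, eval (f z) p = 0 := fun z p hp => hfΦ z (Sum.inl ⟨p, hp⟩)
    have hx0 : ∀ z, (fun i => eval (f z) (L i)) ≠ 0 := by
      intro z h
      obtain ⟨i, hi⟩ := hL0 (f z) (hf0 z) (hfS z)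
      exact hi (congrFun h i)
    have hxd : Differentiable ℂ fun z => fun i => eval (f z) (L i) := by
      rw [differentiable_pi]
      exact fun i => diff_eval hf (L i)
    have hxP : ∀ z l, eval (fun i => eval (f z) (L i)) (G l) = 0 := by
      intro z l
      have h1 := hfΦ z (Sum.inr l)
      change eval (f z) (bind₁ L (G l)) = 0 at h1
      rw [← h1, ← coe_aeval_eq_eval, ← coe_aeval_eq_eval]
      change _ = aeval (f z) (bind₁ L (G l))
      rw [aeval_bind₁]
      rfl
    have hconst := hB0 _ hxd hx0 hxP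
    obtain ⟨c, hc⟩ := const_of_image (N := N + 1) (d := e) (by omega) (S := S) (F := L) hS hL hL0
      hf hf0 hfS (fun w => by
        obtain ⟨c, hc⟩ := hconst w 0
        exact ⟨c, fun i => congrFun hc i⟩) w z
    exact ⟨c, hc⟩
  obtain ⟨ε0, hε0, hopen⟩ := open_brody hΦf hΦB
  set A : ℝ := ∑ l : ι, ((mons (N + 1) (e * d l)).card : ℝ) with hA
  have hA0 : 0 ≤ A := Finset.sum_nonneg fun l _ => Nat.cast_nonneg _
  have hA1 : 0 < A + 1 := by linarith
  refine ⟨ε0 / (A + 1), div_pos hε0 hA1, fun F hF hclose f hf hf0 hfS hfF => ?_⟩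
  have hB : Brody (Sum.elim (fun p : S => p.1) F) := by
    refine hopen _ ?_ ?_
    · rintro (p | l)
      · exact hS p.1 p.2
      · exact ⟨_, hF l⟩
    · rintro (p | l) u hu
      · change ‖eval u p.1 - eval u p.1‖ ≤ ε0
        rw [sub_self, norm_zero]
        exact hε0.le
      · change ‖eval u (F l) - eval u (F0 l)‖ ≤ ε0
        rw [← map_sub]
        refine (small ((hF l).sub (hF0h l)) (ε := ε0 / (A + 1)) (fun m => ?_) hu).trans ?_
        · rw [coeff_sub]
          exact (hclose l m).le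
        · have h1 : ((mons (N + 1) (e * d l)).card : ℝ) ≤ A :=
            Finset.single_le_sum (f := fun l => ((mons (N + 1) (e * d l)).card : ℝ))
              (fun l _ => Nat.cast_nonneg _) (Finset.mem_univ l)
          rw [mul_div_assoc', div_le_iff₀ (by linarith)]
          nlinarith
  refine hB f hf hf0 ?_
  rintro z (p | l)
  · exact hfS z p.1 p.2
  · exact hfF z l

end Pool.Agent.H20.CI
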