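import Pool.Agent.H20.CI.Exi

/-! Finite families of complex numbers that are algebraically independent over a finite set. -/

set_option autoImplicit false

namespace Pool.Agent.H20.CI

open Cardinal

/-- a family that is algebraically independent over the finite set `K0`, in terms of closures -/
theorem exists_indep_over (K0 : Finset ℂ) (κ : Type) [Fintype κ] : ∃ x : κ → ℂ,
    ∀ T : Finset ℂ, (∀ k, x k ∈ cl ((K0 : Set ℂ) ∪ T)) → Fintype.card κ ≤ T.card := by
  classical
  set M := AlgebraicIndependent.matroid ℚ ℂ with hM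
  have hE : M.E = Set.univ := rfl
  obtain ⟨B0, hB0⟩ := M.exists_isBasis (K0 : Set ℂ) (by rw [hE]; exact Set.subset_univ _)
  obtain ⟨B, hB, hB0B⟩ := hB0.indep.exists_isBase_superset
  have hinf : B.Infinite := by
    intro hfin
    obtain ⟨y, hy⟩ := exists_indep (Fin (hfin.toFinset.card + 1))
    have h1 := indep_card hy hfin.toFinset (fun i => by
      unfold cl
      rw [Set.Finite.coe_toFinset]
      have h2 := hB.closure_eq
      rw [hE] at h2
      change _ ∈ M.closure B
      rw [h2]
      exact Set.mem_univ _)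
    rw [Fintype.card_fin] at h1
    omega
  have hB0fin : B0.Finite := K0.finite_toSet.subset hB0.subset
  have hinf2 : (B \ B0).Infinite := hinf.sdiff hB0fin
  have : Infinite (B \ B0 : Set ℂ) := hinf2.to_subtype
  obtain ⟨m, ⟨e⟩⟩ := Finite.exists_equiv_fin κ
  set x : κ → ℂ := fun k => (Infinite.natEmbedding (B \ B0 : Set ℂ) (e k) : ℂ) with hx
  have hxinj : Function.Injective x := by
    intro k l h
    have := (Infinite.natEmbedding (B \ B0 : Set ℂ)).injective (Subtype.ext h)
    exact e.injective (Fin.ext this)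
  have hxm : ∀ k, x k ∈ B \ B0 := fun k => (Infinite.natEmbedding (B \ B0 : Set ℂ) (e k)).2
  refine ⟨x, fun T hT => ?_⟩
  have hdis : Disjoint B0 (Set.range x) := by
    rw [Set.disjoint_left]
    rintro z hz ⟨k, rfl⟩
    exact (hxm k).2 hz
  have hI : M.Indep (B0 ∪ Set.range x) := by
    refine hB.indep.subset (Set.union_subset hB0B ?_)
    rintro _ ⟨k, rfl⟩
    exact (hxm k).1
  have h1 : (Set.range x).encard = Fintype.card κ := by
    rw [← Set.image_univ, hxinj.injOn.encard_image, Set.encard_univ, ENat.card_eq_coe_fintype_card]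
  have h2 : (B0 ∪ Set.range x).encard ≤ B0.encard + (T : Set ℂ).encard := by
    rw [← hI.eRk_eq_encard]
    calc M.eRk (B0 ∪ Set.range x) ≤ M.eRk (M.closure ((K0 : Set ℂ) ∪ T)) := M.eRk_mono (by
            refine Set.union_subset ?_ ?_
            · exact (hB0.subset.trans Set.subset_union_left).trans
                (M.subset_closure _ (by rw [hE]; exact Set.subset_univ _))
            · rintro _ ⟨k, rfl⟩
              exact hT k)
      _ = M.eRk ((K0 : Set ℂ) ∪ T) := M.eRk_closure_eq _
      _ ≤ M.eRk (K0 : Set ℂ) + M.eRk (T : Set ℂ) := M.eRk_union_le_eRk_add_eRk _ _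
      _ ≤ _ := by
          rw [← hB0.encard_eq_eRk]
          gcongr
          exact M.eRk_le_encard _
  rw [Set.encard_union_eq hdis, h1, Set.encard_coe_eq_coe_finsetCard] at h2
  have h3 : B0.encard ≠ ⊤ := hB0fin.encard_lt_top.ne
  have h4 := (ENat.add_le_add_iff_left h3).1 h2
  exact_mod_cast h4

end Pool.Agent.H20.CI
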