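import Pool.Agent.H20.CI.Blk

/-! Counts of transcendence degrees for sums of powers of linear forms. -/

set_option autoImplicit false

namespace Pool.Agent.H20.CI

/-- the pairs of vectors spanning a line in a Fermat hypersurface depend on few parameters -/
theorem pair_count {s d : ℕ} (hd : 1 ≤ d) (hs : s ≤ d + 1) (a b : Fin s → ℂ)
    (h : ∀ σ τ : ℂ, ∑ k, (σ * a k + τ * b k) ^ d = 0) :
    ∃ T : Finset ℂ, T.card ≤ s ∧ ∀ S : Set ℂ, (T : Set ℂ) ⊆ cl S →
      (∀ k, a k ∈ cl S) ∧ (∀ k, b k ∈ cl S) := by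
  classical
  rcases Nat.eq_zero_or_pos s with h0 | h0
  · subst h0
    exact ⟨∅, by simp, fun S _ => ⟨fun k => k.elim0, fun k => k.elim0⟩⟩
  have hne : Nonempty (Fin s) := ⟨⟨0, h0⟩⟩
  -- a general combination
  obtain ⟨t0, ht0⟩ : ∃ t0 : ℕ, ∀ i, (a i ≠ 0 ∨ b i ≠ 0) → a i + t0 * b i ≠ 0 := by
    by_contra hcon
    push Not at hcon
    choose g hg1 hg2 using hcon
    obtain ⟨m, k, hmk, he⟩ := Finite.exists_ne_map_eq_of_infinite g
    have h1 := hg2 m
    have h2 := hg2 k
    rw [← he] at h2
    have h3 : ((m : ℂ) - k) * b (g m) = 0 := by linear_combination h1 - h2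
    have h4 : b (g m) = 0 := by
      refine (mul_eq_zero.1 h3).resolve_left fun h5 => hmk ?_
      exact_mod_cast sub_eq_zero.1 h5
    rw [h4, mul_zero, add_zero] at h1
    rcases hg1 m with h5 | h5
    · exact h5 h1
    · exact h5 h4
  set p : Fin s → ℂ := fun i => a i + t0 * b i with hp
  have hpq : ∀ i, p i = 0 → b i = 0 := by
    intro i h1
    by_contra h2
    exact ht0 i (Or.inr h2) h1
  set ρ : Fin s → ℂ := fun i => b i / p i with hρ
  set Z : Finset (Fin s) := Finset.univ.filter (fun i => p i ≠ 0) with hZ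
  have hZm : ∀ i, i ∈ Z ↔ p i ≠ 0 := fun i => by rw [hZ]; simp
  obtain ⟨g, hg⟩ : ∃ g : ℂ → Fin s, ∀ i ∈ Z, g (ρ i) ∈ Z ∧ ρ (g (ρ i)) = ρ i := by
    refine ⟨fun k => Classical.epsilon (fun j => j ∈ Z ∧ ρ j = k), fun i hi => ?_⟩
    exact Classical.epsilon_spec (p := fun j => j ∈ Z ∧ ρ j = ρ i) ⟨i, hi, rfl⟩
  set R : Finset (Fin s) := Z.image (fun i => g (ρ i)) with hR
  have hRr : ∀ j ∈ R, j ∈ Z ∧ g (ρ j) = j := by
    intro j hj
    rw [hR, Finset.mem_image] at hj
    obtain ⟨i, hi, rfl⟩ := hj
    refine ⟨(hg i hi).1, ?_⟩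
    rw [(hg i hi).2]
  refine ⟨R.image ρ ∪ (Finset.univ \ R).image p, ?_, fun S hS => ?_⟩
  · refine (Finset.card_union_le _ _).trans ?_
    have h2 := Finset.card_image_le (s := R) (f := ρ)
    have h3 := Finset.card_image_le (s := Finset.univ \ R) (f := p)
    have h4 : (Finset.univ \ R).card = s - R.card := by
      rw [Finset.card_sdiff_of_subset (Finset.subset_univ _), Finset.card_univ, Fintype.card_fin]
    have h5 : R.card ≤ s := by
      have := Finset.card_le_univ R
      rwa [Fintype.card_fin] at this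
    omega
  · rw [Finset.coe_union, Set.union_subset_iff] at hS
    have hρR : ∀ i ∈ R, ρ i ∈ cl S := fun i hi => hS.1 (by
      rw [Finset.mem_coe]
      exact Finset.mem_image_of_mem ρ hi)
    have hpR : ∀ i, i ∉ R → p i ∈ cl S := fun i hi => hS.2 (by
      rw [Finset.mem_coe]
      exact Finset.mem_image_of_mem p (by simp [hi]))
    have hρZ : ∀ i ∈ Z, ρ i ∈ cl S := by
      intro i hi
      rw [← (hg i hi).2]
      exact hρR _ (by rw [hR]; exact Finset.mem_image_of_mem (fun i => g (ρ i)) hi)
    have hrel : ∀ i ∈ Z, ∑ j ∈ Z.filter (fun j => ρ j = ρ i), p j ^ d = 0 := by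
      intro i hi
      refine sum_class Z (fun j => p j ^ d) ρ d ?_ ?_ hi
      · have := Finset.card_le_univ Z
        rw [Fintype.card_fin] at this
        omega
      · intro t
        refine Eq.trans ?_ (h 1 (t0 + t))
        rw [hZ, Finset.sum_filter]
        refine Finset.sum_congr rfl fun j _ => ?_
        have e2 : 1 * a j + ((t0 : ℂ) + t) * b j = p j + t * b j := by
          rw [hp]; ring
        rw [e2]
        split_ifs with hpj
        · rw [← mul_pow]
          congr 1
          change p j * (1 + t * (b j / p j)) = _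
          field_simp
        · have hpj' : p j = 0 := by
            by_contra hh
            exact hpj hh
          rw [hpj', hpq j hpj', mul_zero, add_zero, zero_pow]
          omega
    have hpall : ∀ i, p i ∈ cl S := by
      intro i
      by_cases hi : i ∈ R
      · obtain ⟨hiZ, hgi⟩ := hRr i hi
        have h1 := hrel i hiZ
        set U := Z.filter (fun j => ρ j = ρ i) with hU
        have hiU : i ∈ U := by
          rw [hU, Finset.mem_filter]
          exact ⟨hiZ, rfl⟩
        rw [← Finset.add_sum_erase _ _ hiU] at h1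
        have h2 : ∑ j ∈ U.erase i, p j ^ d ∈ cl S := by
          refine cl_sum _ _ fun j hj => ?_
          rw [Finset.mem_erase, hU, Finset.mem_filter] at hj
          refine cl_pow (hpR j fun hjR => hj.1 ?_) _
          obtain ⟨-, hgj⟩ := hRr j hjR
          rw [← hgj, ← hgi, hj.2.2]
        refine cl_root (p := Polynomial.X ^ d + Polynomial.C (∑ j ∈ U.erase i, p j ^ d)) ?_ ?_ ?_
        · exact (Polynomial.monic_X_pow_add_C _ (by omega)).ne_zero
        · intro n
          rw [Polynomial.coeff_add, Polynomial.coeff_X_pow, Polynomial.coeff_C]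
          refine cl_add ?_ ?_
          · split_ifs
            · exact cl_one S
            · exact cl_zero S
          · split_ifs
            · exact h2
            · exact cl_zero S
        · rw [Polynomial.eval_add, Polynomial.eval_pow, Polynomial.eval_X, Polynomial.eval_C]
          exact h1
      · exact hpR i hi
    have hb : ∀ i, b i ∈ cl S := by
      intro i
      by_cases hi : p i = 0
      · rw [hpq i hi]; exact cl_zero S
      · have h1 : b i = ρ i * p i := by
          change b i = b i / p i * p i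
          field_simp
        rw [h1]
        exact cl_mul (hρZ i ((hZm i).2 hi)) (hpall i)
    refine ⟨fun i => ?_, hb⟩
    have h1 : a i = p i - t0 * b i := by
      change a i = a i + t0 * b i - t0 * b i
      ring
    rw [h1]
    exact cl_sub (hpall i) (cl_mul (cl_nat S t0) (hb i))

/-- **The count for a sum of powers.** -/
theorem waring_count {N s d : ℕ} (hd : 1 ≤ d) (hs : s ≤ d + 1) (A : Fin s → Fin (N + 1) → ℂ)
    (u v : Fin (N + 1) → ℂ)
    (j1 j2 : Fin (N + 1)) (hj : j1 ≠ j2) (hu1 : u j1 = 1) (hu2 : u j2 = 0) (hv1 : v j1 = 0)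
    (hv2 : v j2 = 1)
    (h : ∀ σ τ : ℂ, ∑ k, (σ * (∑ j, A k j * u j) + τ * ∑ j, A k j * v j) ^ d = 0) :
    ∃ T : Finset ℂ, T.card + s ≤ s * (N + 1) ∧ ∀ S : Set ℂ,
      (T : Set ℂ) ⊆ cl S → (∀ j, u j ∈ cl S) → (∀ j, v j ∈ cl S) → ∀ k j, A k j ∈ cl S := by
  classical
  have hN : 1 ≤ N := by
    by_contra h0
    have : N = 0 := by omega
    subst this
    exact hj (Fin.ext (by omega))
  obtain ⟨T1, hT1, hT1'⟩ := matrix_count A u v j1 j2 hj hu1 hu2 hv1 hv2
  obtain ⟨T2, hT2, hT2'⟩ := pair_count hd hs _ _ h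
  refine ⟨T1 ∪ T2, ?_, fun S hS hu hv => ?_⟩
  · have e1 := Finset.card_union_le T1 T2
    have e2 : s * (N + 1) = s * (N - 1) + 2 * s := by
      obtain ⟨N', rfl⟩ := Nat.exists_eq_add_of_le' hN
      rw [Nat.add_sub_cancel]
      ring
    omega
  · rw [Finset.coe_union, Set.union_subset_iff] at hS
    have h1 := hT2' S hS.2
    exact hT1' S hS.1 hu hv h1.1 h1.2

end Pool.Agent.H20.CI
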